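import Pool.Agent.V7H10.SA
import Pool.Agent.N375.AV.D

/-!
# Translates of every point of `Lie (E × G_m)` by logarithms near the values of additive functions

Let `E` be the elliptic curve `y² = 4 x³ - g₂ x - g₃` with rational `g₂`, `g₃`, and `G = E × G_m`. Let `r₀ = (z, s)` be
ANY point of `Lie G_ℂ`, and translate it by logarithms of the points `((v, ± y), v)` of `G`, where `v` is ANY integer with
`|v|` near `G(F(m))`: `F = f_1 ∘ ⋯ ∘ f_k` is a composition of functions dominated by the largest prime factor, such as the sum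
of the prime factors with multiplicity, the largest prime factor, or the least `j` with `m ∣ j!`, and `G` is increasing of
order `e ≥ 1`. For all `m ≤ N` but `C N exp (- c (log N) ^ (1 / (k + 1)))`, every polynomial relation of bounded degree, over
number fields of bounded degree and of any height, between arbitrary constants `w_1, …, w_q` (for instance the periods of
`G`), the components `u`, `t` of the translate `r`, the number `ζ(u)`, and the components of `exp_G(r)` is an identity in the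
numbers `u`, `ζ(u)`, `t`. The constants do not depend on `r₀` and `w`.

The input is the starting theorem `SemiabelianTranslates` of this problem; the tool is `Pool.Agent.N375.AV` (helper375).
-/

set_option autoImplicit false

open scoped PeriodPair

namespace Pool.Agent.Results.MP_4aec10_nt.AdditiveTranslatesH10

open Pool.Agent.N733.TG (Expanding)
open Pool.Agent.N375.AV (PD comp windows_unif pd_sopfr pd_largest pd_kempner)
open Pool.Agent.V7H10.SA (AllFree count)

/-- **The Schanuel bound for `E × G_m` near values of additive functions.** Let `Λ` be a lattice with rational invariants. For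
all `q`, `δ`, `d` there is `0 < σ < 1` such that for all lists `f_1, …, f_k` of functions dominated by the largest prime
factor, all `G` with steps at least a positive constant and growth at most `v ^ e`, and all `κ ≥ 0` with `e σ + κ < 1`, there
are `c > 0` and `C` such that for all `w` in `ℂ^q`, all points `(z, s)` of `ℂ × ℂ` and all `N`, for all `m ≤ N` but
`C N exp (- c (log N) ^ (1 / (k + 1)))`, for ALL integers `v` with `||v| - G(F(m))| ≤ F(m) ^ κ`, `F = f_1 ∘ ⋯ ∘ f_k`: all
translates of `(z, s)` by logarithms of the points `((v, y), v)` are free over their image and `w`, for relations of degree at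
most `δ` over number fields of degree at most `d`. -/
theorem result :
    (∀ (Λ : PeriodPair) (a b : ℚ), Λ.g₂ = a → Λ.g₃ = b → ∀ (q δ d : ℕ),
      ∃ σ : ℝ, 0 < σ ∧ σ < 1 ∧ ∀ fs : List (ℕ → ℕ), (∀ f ∈ fs, PD f) → ∀ (G : ℕ → ℝ) (e κ : ℝ), Expanding G e → 0 ≤ κ →
        e * σ + κ < 1 → ∃ c C : ℝ, 0 < c ∧ ∀ (w : Fin q → ℂ) (z s : Fin 1 → ℂ) (N : ℕ), 1 ≤ N →
          ({m : ℕ | 1 ≤ m ∧ m ≤ N ∧ ¬ ∀ v : ℤ, |(v.natAbs : ℝ) - G (comp fs m)| ≤ (comp fs m : ℝ) ^ κ →
            AllFree Λ δ d w z s (fun _ => v)}.ncard : ℝ) ≤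
            C * N * Real.exp (-(c * Real.log N ^ ((1 : ℝ) / (fs.length + 1))))) ∧
    -- examples: the sum of the prime factors, the largest prime factor, the least `k` with `m ∣ k!`
    PD (fun m => m.primeFactorsList.sum) ∧ PD (fun m => m.primeFactors.sup id) ∧
      PD (fun m => sInf {k : ℕ | m ∣ k.factorial}) := by
  refine ⟨?_, pd_sopfr, pd_largest, pd_kempner⟩
  intro Λ a b ha hb q δ d
  obtain ⟨c, hc0, hc1, C, hC, hcount⟩ := count Λ a b ha hb 1 q δ d
  refine ⟨1 - c, by linarith, by linarith, fun fs hfs G e κ hG hκ h1 => ?_⟩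
  obtain ⟨c', C', hc', h⟩ := windows_unif (T := ℤ) (fun t : ℤ => (t.natAbs : ℝ)) fs hfs hG (s := 1 - c) (κ := κ)
    (by linarith) hκ h1 C
  refine ⟨c', C', hc', fun w z s N hN => ?_⟩
  refine le_trans ?_ (h {v : ℤ | ¬ AllFree Λ δ d w z s (fun _ => v)} (fun X hX => ?_) N hN)
  · apply Nat.cast_le.2
    apply Set.ncard_le_ncard
    · rintro m ⟨h2, h3, h4⟩
      refine ⟨h2, h3, ?_⟩
      rw [not_forall] at h4
      obtain ⟨v, h4⟩ := h4
      rw [Classical.not_imp] at h4
      exact ⟨v, h4.2, h4.1⟩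
    · apply (Set.finite_Icc 1 N).subset
      rintro m ⟨h2, h3, _⟩
      exact ⟨h2, h3⟩
  · have hX1 : 1 ≤ ⌊X⌋₊ := Nat.le_floor (by exact_mod_cast hX)
    have h3 : ((⌊X⌋₊ : ℕ) : ℝ) ≤ X := Nat.floor_le (by linarith)
    obtain ⟨hfin, hle⟩ := hcount w z s ⌊X⌋₊ hX1
    have hmaps : ∀ t ∈ {t : ℤ | t ∈ {v : ℤ | ¬ AllFree Λ δ d w z s (fun _ => v)} ∧ (t.natAbs : ℝ) ≤ X},
        (fun (t : ℤ) (_ : Fin 1) => t) t ∈
          {v : Fin 1 → ℤ | (∀ i, |v i| ≤ ((⌊X⌋₊ : ℕ) : ℤ)) ∧ ¬ AllFree Λ δ d w z s v} := by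
      rintro t ⟨h4, h5⟩
      refine ⟨fun _ => ?_, h4⟩
      have h6 := Nat.le_floor h5
      show |t| ≤ ((⌊X⌋₊ : ℕ) : ℤ)
      rw [Int.abs_eq_natAbs]
      exact_mod_cast h6
    have hinj : Set.InjOn (fun (t : ℤ) (_ : Fin 1) => t)
        {t : ℤ | t ∈ {v : ℤ | ¬ AllFree Λ δ d w z s (fun _ => v)} ∧ (t.natAbs : ℝ) ≤ X} := by
      intro t _ t' _ he
      exact congrFun he 0
    refine ⟨Set.Finite.of_injOn hmaps hinj hfin, ?_⟩
    calc (({t : ℤ | t ∈ {v : ℤ | ¬ AllFree Λ δ d w z s (fun _ => v)} ∧ (t.natAbs : ℝ) ≤ X}.ncard : ℕ) : ℝ)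
        ≤ (({v : Fin 1 → ℤ | (∀ i, |v i| ≤ ((⌊X⌋₊ : ℕ) : ℤ)) ∧ ¬ AllFree Λ δ d w z s v}.ncard : ℕ) : ℝ) :=
          Nat.cast_le.2 (Set.ncard_le_ncard_of_injOn _ hmaps hinj hfin)
      _ ≤ C * ((⌊X⌋₊ : ℕ) : ℝ) ^ (((1 : ℕ) : ℝ) - c) := hle
      _ ≤ C * X ^ (1 - c) := by
          rw [Nat.cast_one]
          exact mul_le_mul_of_nonneg_left (Real.rpow_le_rpow (by positivity) h3 (by linarith)) hC

end Pool.Agent.Results.MP_4aec10_nt.AdditiveTranslatesH10
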