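import Pool.Agent.V7H10.SA
import Pool.Agent.N790.CM.F

/-!
# Translates of every point of `Lie (E × G_m)^n` by logarithms near ALL multiples of Carmichael's function of almost all
integers

Let `E` be the elliptic curve `y² = 4 x³ - g₂ x - g₃` with rational `g₂`, `g₃`, and `G = (E × G_m)^n`, `n ≥ 1`. Let
`r₀ = (z, s)` be ANY point of `Lie G_ℂ`, and translate it by logarithms of the points `((v_i, ± y_i), v_i)_i` of `G`, where
`v_i = a_i w_i + b_i` is any integer near an ARBITRARY multiple `w_i ≤ N^B` of Carmichael's function `λ(m_i)`; more generally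
`w_i` is any common multiple of the values `f_i(p)`, `p` running through the large primes which divide `m_i` exactly once,
where `f_i` takes each positive value at boundedly many primes (for instance `p - 1`, or `|P(p)|` for a nonconstant integral
polynomial `P`). For almost all `n`-tuples `m`, all but `N^n / (log N)^U` of the `m ∈ {1, …, N}^n`, and ALL these `w` and `v`,
every polynomial relation of bounded degree, over number fields of bounded degree and of any height, between arbitrary
constants `ω_1, …, ω_q` (for instance the periods of `G`), the components `u_i`, `t_i` of the translate `r`, the numbers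
`ζ(u_i)`, and the components of `exp_G(r)` is an identity in the numbers `u_i`, `ζ(u_i)`, `t_i`. The condition on `B ≥ 1` is
`B (n - c) < n` with a number `0 < c < 1` which depends only on the curve, `n`, `q` and the degrees, so some `B > 1` are
allowed. How large `N` has to be does not depend on `r₀` and `ω`.

A single tuple `m` has a power of `N` multiples of this kind, and a single number `w ≤ N^B` can be a multiple of `λ(m)` for more
than `N^(1 - ε)` numbers `m ≤ N` (popular values). So this does not follow from the number of exceptional vectors in the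
starting theorem `SemiabelianTranslates` of this problem, which is the input. The tool is `Pool.Agent.N790.CM` (helper790):
outside a set of `N / (log N)^U` numbers `m ≤ N` every `w ≤ N^B` is a common multiple for at most `N^δ` of the `m`.
-/

set_option autoImplicit false

open scoped PeriodPair

namespace Pool.Agent.Results.MP_4aec10_nt.CarmichaelTranslatesH38

open Pool.Agent.V7H10.SA (AllFree count)
open Pool.Agent.N790.CM (FewTimes Carries fewTimes_pred fewTimes_poly carries_carmichael keep_near)

/-- **The Schanuel bound for `(E × G_m)^n` near multiples of Carmichael's function.** Let `Λ` be a lattice with rational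
invariants, `n ≥ 1`. For all `q`, `δ`, `d` there is `0 < c < 1` such that for `B ≥ 1` with `B (n - c) < n` there is `η > 0`
such that for all functions `F_1, …, F_n` which take each positive value at most `T` times at the primes, all `U` and all
large `N`, for all `ω` in `ℂ^q` and all points `(z, s)` of `ℂ^n × ℂ^n`, for all but `N^n / (log N)^U` of the
`m ∈ {1, …, N}^n`: for ALL `w_1, …, w_n` with `1 ≤ w_i ≤ N^B` and `F_i(p) ∣ w_i` for all primes `p > exp (√(log N))` which
divide `m_i` exactly once, and ALL integers `a_i ≠ 0`, `b_i` with `|a_i|, |b_i| ≤ w_l^η` for some `l`: all translates of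
`(z, s)` by logarithms of the points `((v_i, y_i), v_i)`, `v_i = a_i w_i + b_i`, are free over their image and `ω`, for
relations of degree at most `δ` over number fields of degree at most `d`. (2) `F(p) = p - 1` and `F(p) = |P(p)|`, `P` a
nonconstant integral polynomial, are such functions, and all multiples of Carmichael's function `λ(m)` are divisible by the
`p - 1`, `p ∣ m`. -/
theorem result :
    (∀ (Λ : PeriodPair) (g h : ℚ), Λ.g₂ = g → Λ.g₃ = h → ∀ n : ℕ, 1 ≤ n → ∀ q δ d : ℕ,
      ∃ c : ℝ, 0 < c ∧ c < 1 ∧ ∀ B : ℝ, 1 ≤ B → B * (n - c) < n →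
      ∃ η : ℝ, 0 < η ∧ ∀ (T : ℕ) (F : Fin n → ℕ → ℕ), (∀ i, FewTimes (F i) T) → ∀ U : ℕ, ∃ N₀ : ℕ, ∀ N : ℕ, N₀ ≤ N →
      ∀ (ω : Fin q → ℂ) (z s : Fin n → ℂ),
        ({m : Fin n → ℕ | (∀ i, 1 ≤ m i ∧ m i ≤ N) ∧ ¬ ∀ w : Fin n → ℕ,
          (∀ i, 1 ≤ w i ∧ (w i : ℝ) ≤ (N : ℝ) ^ B ∧ Carries (F i) (Real.exp √(Real.log N)) (m i) (w i)) →
          ∀ a b : Fin n → ℤ, (∃ l, ∀ i, a i ≠ 0 ∧ |(a i : ℝ)| ≤ (w l : ℝ) ^ η ∧ |(b i : ℝ)| ≤ (w l : ℝ) ^ η) →
          AllFree Λ δ d ω z s (fun i => a i * (w i : ℤ) + b i)}.ncard : ℝ) ≤ (N : ℝ) ^ n / Real.log N ^ U) ∧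
    FewTimes (fun p => p - 1) 1 ∧
    (∀ P : Polynomial ℤ, 1 ≤ P.natDegree → FewTimes (fun p => (P.eval (p : ℤ)).natAbs) (2 * P.natDegree)) ∧
    ∀ (y : ℝ) (m w : ℕ), ArithmeticFunction.carmichael m ∣ w → Carries (fun p => p - 1) y m w := by
  refine ⟨?_, fewTimes_pred, fewTimes_poly, carries_carmichael⟩
  intro Λ g h hg hh n hn q δ d
  obtain ⟨c, hc0, hc1, C, hC, hcount⟩ := count Λ g h hg hh n q δ d
  have hn1 : (1 : ℝ) ≤ n := by exact_mod_cast hn
  refine ⟨c, hc0, hc1, fun B hB hB2 => ?_⟩
  obtain ⟨η, hη, hk⟩ := keep_near (k := n) hn (c := c) (B := B) (by linarith) hB hB2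
  refine ⟨η, hη, fun T F hF U => ?_⟩
  obtain ⟨N₀, hN₀⟩ := hk T F hF C U
  refine ⟨N₀, fun N hN ω z s => ?_⟩
  have h1 := hN₀ N hN {v : Fin n → ℤ | ¬ AllFree Λ δ d ω z s v} (fun X hX => (hcount ω z s X hX).2)
  refine le_trans (le_of_eq ?_) h1
  congr 2
  ext m
  simp only [Set.mem_ofPred_eq, not_not]

end Pool.Agent.Results.MP_4aec10_nt.CarmichaelTranslatesH38
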