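import Pool.Agent.V7H10.SA
import Pool.Agent.R482.ST.Vec

/-!
# Translates in `Lie (E × G_m)^n` by logarithms of all integral vectors near radial starshaped sequences

Let `E` be the elliptic curve `y² = 4 x³ - g₂ x - g₃` with rational `g₂`, `g₃`, and `G = (E × G_m)^n`. Let `r₀ = (z, s)` be
ANY point of `Lie G_ℂ = ℂⁿ × ℂⁿ`, and translate it by logarithms of the points `((v_i, ± y_i), v_i)_i` of `G`, where `v` is
ANY integral vector near one of the points `(r_k / ‖x‖) x`, `r_k = f_k(‖x‖)`, of a fixed sequence on the ray of `x ∈ ℝ ^ n`,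
such as `2 ^ k x`, `‖x‖ ^ (k - 1) x`, or the orbit of a map `g` with `g(t) / t` nondecreasing. For all `x` outside a set of
Hausdorff dimension smaller than `n` and all large `k`, every polynomial relation of bounded degree, over number fields of
bounded degree and of any height, between arbitrary constants `w_1, …, w_q` (for instance the periods of `G`), the components
`u_i`, `t_i` of the translate `r`, the numbers `ζ(u_i)`, and the components of `exp_G(r)` is an identity in the numbers `u_i`,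
`ζ(u_i)`, `t_i`. In bounded degree the transcendence degree of the components of `r` and `exp_G(r)` over the field of periods
is thus at least `dim G`.

The sequence is in general very sparse, and so this does not follow from the size of the exceptional set in the starting
theorem `SemiabelianTranslates` of this problem, which is the input; the tool is `Pool.Agent.R482.ST` (helper482).
-/

set_option autoImplicit false

open scoped PeriodPair

namespace Pool.Agent.Results.MP_4aec10_nt.StarshapedTranslatesH10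

open MeasureTheory
open Pool.Agent.R482.ST (Starshaped Conv vec_windows_nat ex_mul ex_pow ex_orbit)
open Pool.Agent.V7H10.SA (AllFree count)

/-- **The Schanuel bound for `(E × G_m)^n` near radial starshaped sequences.** Let `Λ` be a lattice with rational invariants,
`n ≥ 1`. For all `q`, `δ`, `d` there is `0 < c < 1` such that for all `w` in `ℂ^q`, all points `(z, s)` of `ℂⁿ × ℂⁿ`, all
starshaped sequences `f` on `(a₀, ∞)` with exponent of convergence at most `τ` and all `θ < 1` there is a set `E` of Hausdorff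
dimension at most `(n - c + τ) / (1 - θ)` such that for all `x ∈ ℝ ^ n` outside `E` with `‖x‖ > a₀` and all `κ`, for all large
`k`, for ALL integral vectors `v` within `κ f_k(‖x‖) ^ θ` of `(f_k(‖x‖) / ‖x‖) x`: all translates of `(z, s)` by logarithms of
the points `((v_i, y_i), v_i)` are free over their image and `w`, for relations of degree at most `δ` over number fields of
degree at most `d`. -/
theorem result :
    (∀ (Λ : PeriodPair) (a b : ℚ), Λ.g₂ = a → Λ.g₃ = b → ∀ (n q : ℕ), 1 ≤ n → ∀ (δ d : ℕ),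
      ∃ c : ℝ, 0 < c ∧ c < 1 ∧ ∀ (w : Fin q → ℂ) (z s : Fin n → ℂ) (f : ℕ → ℝ → ℝ) (a₀ τ θ : ℝ), Starshaped a₀ f →
        0 ≤ τ → Conv a₀ f τ → θ < 1 →
        ∃ E : Set (Fin n → ℝ), dimH E ≤ ENNReal.ofReal (((n : ℝ) - c + τ) / (1 - θ)) ∧
          ∀ x : Fin n → ℝ, a₀ < ‖x‖ → x ∉ E → ∀ κ : ℝ, ∃ k₀ : ℕ, ∀ k : ℕ, k₀ ≤ k → ∀ v : Fin n → ℤ,
            (∀ i, |(v i : ℝ) - f k ‖x‖ / ‖x‖ * x i| ≤ κ * (f k ‖x‖) ^ θ) → AllFree Λ δ d w z s v) ∧
    -- examples of starshaped sequences: multiples, powers, orbits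
    (∀ (v : ℕ → ℝ) (τ : ℝ), (∀ n, 0 < v n) → (∀ t : ℝ, τ < t → Summable (fun n : ℕ => (v n) ^ (-t))) →
      Starshaped 0 (fun n x => v n * x) ∧ Conv 0 (fun n x => v n * x) τ) ∧
    (∀ v : ℕ → ℝ, (∀ n, 1 ≤ v n) → (∀ t : ℝ, 0 < t → Summable fun n : ℕ => Real.exp (-(t * v n))) →
      Starshaped 1 (fun n x => x ^ (v n)) ∧ Conv 1 (fun n x => x ^ (v n)) 0) ∧
    (∀ (a : ℝ) (g : ℝ → ℝ), 0 ≤ a → (∀ x y : ℝ, a < x → x ≤ y → g x / x ≤ g y / y) → (∀ x : ℝ, a < x → x < g x) →
      Starshaped a (fun n x => g^[n] x) ∧ Conv a (fun n x => g^[n] x) 0) := by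
  refine ⟨?_, ex_mul, ex_pow, ex_orbit⟩
  intro Λ a b ha hb n q hn δ d
  obtain ⟨c, hc0, hc1, C, hC, hcount⟩ := count Λ a b ha hb n q δ d
  have hn1 : (1 : ℝ) ≤ n := by exact_mod_cast hn
  refine ⟨c, hc0, hc1, fun w z s f a₀ τ θ hf hτ hv hθ => ?_⟩
  obtain ⟨E, hE, h⟩ := vec_windows_nat (ι := Fin n) (fun v _ => ¬ AllFree Λ δ d w z s v) (fun v X Y _ hv => hv)
    (s := (n : ℝ) - c) (by linarith) ⟨C, fun H hH => (hcount w z s H hH).2⟩ f a₀ τ θ hf hτ hv hθ
  refine ⟨E, hE, fun x hx hxE κ => ?_⟩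
  obtain ⟨k₀, hk₀⟩ := h x hx hxE κ
  exact ⟨k₀, fun k hk v hv => not_not.1 (hk₀ k hk v hv)⟩

end Pool.Agent.Results.MP_4aec10_nt.StarshapedTranslatesH10
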