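import Pool.Agent.V7H10.SA
import Pool.Agent.V7H10.SL
import Pool.Agent.N760.IT.E

/-!
# Translates of every point of `Lie (E × G_m)^(r + 1)` by logarithms near the orbits of Euler's function

Let `E` be the elliptic curve `y² = 4 x³ - g₂ x - g₃` with rational `g₂`, `g₃`, and `G = (E × G_m)^(r + 1)`. Let
`r₀ = (z, s)` be ANY point of `Lie G_ℂ`, and translate it by logarithms of the points `((v_i, ± y_i), v_i)_i` of `G`, where
`v` is an integral vector: `|v_0| ∈ [N ^ (1 - κ), A N]` is ANY integer near `G(f(φ_j(m)))` for some `j ≤ K`, where `φ_j` is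
the `j`-fold iterate of Euler's function, `f` is multiplicative and `G` is increasing of linear growth, and `|v_i| ≤ A N`,
`i ≥ 1`, are arbitrary outside a set with a power saving. For all but `η N` of the `m ≤ N`, every polynomial relation of
bounded degree, over number fields of bounded degree and of any height, between arbitrary constants `w_1, …, w_q`, the
components `u_i`, `t_i` of the translate `r`, the numbers `ζ(u_i)`, and the components of `exp_G(r)` is an identity in the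
numbers `u_i`, `ζ(u_i)`, `t_i`. How large `N` has to be does not depend on `r₀` and `w`.

The input is the starting theorem `SemiabelianTranslates` of this problem; the tool is `Pool.Agent.N760.IT` (helper760).
-/

set_option autoImplicit false

open scoped PeriodPair

namespace Pool.Agent.Results.MP_4aec10_nt.TotientOrbitTranslatesH10

open Finset
open Pool.Agent.N733.TG (LM Expanding)
open Pool.Agent.N760.IT (orb orbit_unif)
open Pool.Agent.V7H10.SL (Slice slice)
open Pool.Agent.V7H10.SA (AllFree count)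

/-- **The Schanuel bound for `(E × G_m)^(r + 1)` near the orbits of Euler's function.** Let `Λ` be a lattice with rational
invariants. For all `r`, `q`, `δ`, `d` there is `0 < κ < 1` such that for all `f` with `LM`, all `G` with steps at least a
positive constant and of linear growth, all `A`, `K` and `η > 0`, for all large `N`, for all `w` in `ℂ^q` and all points
`(z, s)` of `ℂ^(r + 1) × ℂ^(r + 1)` there is a set `X` of at most `N ^ (r - κ)` vectors such that for all
`v' ∈ [1, A N] ^ r` outside `X`, for all but `η N` of the `m ≤ N`, for all `j ≤ K` and ALL integral vectors `v` with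
`N ^ (1 - κ) ≤ |v_0| ≤ A N`, `||v_0| - G(f(φ_j m))| ≤ f(φ_j m) ^ κ` and `|v_i| = v'_i` for `i = 1, …, r`: all translates of
`(z, s)` by logarithms of the points `((v_i, y_i), v_i)` are free over their image and `w`, for relations of degree at most
`δ` over number fields of degree at most `d`. -/
theorem result (Λ : PeriodPair) (a b : ℚ) (ha : Λ.g₂ = a) (hb : Λ.g₃ = b) (r q δ d : ℕ) :
    ∃ κ : ℝ, 0 < κ ∧ κ < 1 ∧
      ∀ f : ℕ → ℕ, LM f → ∀ G : ℕ → ℝ, Expanding G 1 → ∀ (A K : ℕ) (η : ℝ), 0 < η → ∃ N₀ : ℕ, ∀ N : ℕ, N₀ ≤ N →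
        ∀ (w : Fin q → ℂ) (z s : Fin (r + 1) → ℂ),
        ∃ X : Finset (Fin r → ℕ), (X.card : ℝ) ≤ (N : ℝ) ^ ((r : ℝ) - κ) ∧
          ∀ v' : Fin r → ℕ, (∀ i, 1 ≤ v' i ∧ v' i ≤ A * N) → v' ∉ X →
            ({m : ℕ | 1 ≤ m ∧ m ≤ N ∧ ¬ ∀ j ≤ K, ∀ v : Fin (r + 1) → ℤ, (N : ℝ) ^ (1 - κ) ≤ ((v 0).natAbs : ℝ) →
              (v 0).natAbs ≤ A * N → |((v 0).natAbs : ℝ) - G (orb f j m)| ≤ (orb f j m : ℝ) ^ κ →
              (∀ i : Fin r, (v i.succ).natAbs = v' i) → AllFree Λ δ d w z s v}.ncard : ℝ) ≤ η * N := by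
  classical
  obtain ⟨c, hc0, hc1, C, hC, hcount⟩ := count Λ a b ha hb (r + 1) q δ d
  refine ⟨c / 8, by positivity, by linarith, fun f hf G hG A K η hη => ?_⟩
  obtain ⟨N₁, hN₁⟩ := slice A r hc0 hc1.le (C * ((A : ℝ) + 1) ^ (r + 1))
  obtain ⟨N₂, hN₂⟩ := orbit_unif (T := ℕ) hf hG (s := 1 - c / 4) (κ := c / 8) (by linarith) (by positivity)
    (by linarith) 1 K η hη
  refine ⟨max (max N₁ N₂) 1, fun N hN w z s => ?_⟩
  have hN1 : 1 ≤ N := (le_max_right _ _).trans hN
  have hN1' : (1 : ℝ) ≤ N := by exact_mod_cast hN1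
  have hN0 : (0 : ℝ) < N := by linarith
  obtain ⟨Bad, hBad⟩ : ∃ Bad : (Fin (r + 1) → ℕ) → Prop, Bad = fun x => ∃ v : Fin (r + 1) → ℤ,
      (∀ e, (v e).natAbs = x e) ∧ ¬ AllFree Λ δ d w z s v := ⟨_, rfl⟩
  obtain ⟨X, hX, h⟩ := hN₁ N (((le_max_left _ _).trans (le_max_left _ _)).trans hN) Bad (by
    have hT : 1 ≤ (A + 1) * N := Nat.mul_pos (Nat.succ_pos _) (by omega)
    obtain ⟨hfin, h1⟩ := hcount w z s ((A + 1) * N) hT
    have h2 : (((Fintype.piFinset fun _ : Fin (r + 1) => Icc 1 (A * N)).filter Bad : Finset (Fin (r + 1) → ℕ)) :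
        Set (Fin (r + 1) → ℕ)) ⊆ (fun v e => (v e).natAbs) ''
          {v : Fin (r + 1) → ℤ | (∀ i, |v i| ≤ (((A + 1) * N : ℕ) : ℤ)) ∧ ¬ AllFree Λ δ d w z s v} := by
      intro x hx
      rw [mem_coe, mem_filter, Fintype.mem_piFinset, hBad] at hx
      obtain ⟨hx1, v, hv1, hv2⟩ := hx
      refine ⟨v, ⟨fun i => ?_, hv2⟩, funext hv1⟩
      have h3 := (mem_Icc.1 (hx1 i)).2.trans (Nat.mul_le_mul_right N (Nat.le_succ A))
      rw [← hv1 i] at h3
      rw [Int.abs_eq_natAbs]
      exact_mod_cast h3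
    have h3 := (Set.ncard_le_ncard h2 (hfin.image _)).trans (Set.ncard_image_le hfin)
    rw [Set.ncard_coe_finset] at h3
    refine (Nat.cast_le.2 h3).trans (h1.trans ?_)
    calc C * (((A + 1) * N : ℕ) : ℝ) ^ (((r + 1 : ℕ) : ℝ) - c)
        = C * (((A : ℝ) + 1) ^ (((r + 1 : ℕ) : ℝ) - c) * (N : ℝ) ^ (((r + 1 : ℕ) : ℝ) - c)) := by
          push_cast
          rw [Real.mul_rpow (by positivity) hN0.le]
      _ ≤ C * (((A : ℝ) + 1) ^ (r + 1) * (N : ℝ) ^ (((r + 1 : ℕ) : ℝ) - c)) := by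
          apply mul_le_mul_of_nonneg_left _ hC
          apply mul_le_mul_of_nonneg_right _ (by positivity)
          rw [← Real.rpow_natCast]
          exact Real.rpow_le_rpow_of_exponent_le (by linarith [(Nat.cast_nonneg A : (0 : ℝ) ≤ A)]) (by linarith)
      _ = _ := by ring)
  refine ⟨X, hX, fun v' hv' hvX => ?_⟩
  have h1 := hN₂ (Slice A (c / 8) Bad N v') (fun t : ℕ => (t : ℝ)) (h v' hv' hvX) N
    (((le_max_right _ _).trans (le_max_left _ _)).trans hN)
  refine le_trans ?_ h1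
  apply Nat.cast_le.2
  apply Set.ncard_le_ncard
  · rintro m ⟨h2, h3, h4⟩
    refine ⟨h2, h3, ?_⟩
    rw [not_forall] at h4
    obtain ⟨j, h4⟩ := h4
    rw [Classical.not_imp, not_forall] at h4
    obtain ⟨hj, v, h4⟩ := h4
    rw [Classical.not_imp, Classical.not_imp, Classical.not_imp, Classical.not_imp] at h4
    obtain ⟨hv1, hv2, hv3, hv4, hv5⟩ := h4
    refine ⟨j, hj, (v 0).natAbs, ⟨hv1, hv2, ?_⟩, hv3⟩
    rw [hBad]
    refine ⟨v, fun e => ?_, hv5⟩
    refine Fin.cases ?_ (fun i => ?_) e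
    · rw [Fin.cons_zero]
    · rw [Fin.cons_succ]
      exact hv4 i
  · apply (Set.finite_Icc 1 N).subset
    rintro m ⟨h2, h3, _⟩
    exact ⟨h2, h3⟩

end Pool.Agent.Results.MP_4aec10_nt.TotientOrbitTranslatesH10
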